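import Mathlib
import Pool.Agent.U515.LF.A1
set_option autoImplicit false

/-! All exponents, and the hypothesis in terms of the sphere `S^m`. -/

namespace Pool.Agent.U515.LF

open MeasureTheory Set Complex
open scoped ENNReal RealInnerProductSpace
open Pool.Agent.TH335.RF
open Pool.Agent.H789R2.FR (E sg T sg_finite)
open Pool.Agent.H438R2.BR (Phi J J_mp)
open Pool.Agent.H438R2.BR.T10 (e0 e0_norm)
open Pool.Agent.H438R2.PD (P1 P2 P1_meas P2_meas T_meas' T_le)

variable {m : ℕ}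

/-- all exponents -/
theorem T_boundF (k : ℕ) (hk : 2 ≤ k) (hm : 1 ≤ m) (P q : ℝ) (hP : 2 < P)
    (A : ℝ) (hA : 0 < A) (h : 1 < (q - 2) * (((k : ℝ) - 1) / 2 + 1 / (P - 2))) :
    ∃ C : ℝ, 0 < C ∧ ∀ (F : E m → ℂ), Measurable F → (∀ y, ‖F y‖ ≤ 1) → HypF k P F A →
    ∫⁻ z, ‖T (fun z : E (k + m) => F (P2 k m z)) z‖ₑ ^ q ≤ ENNReal.ofReal C := by
  have hk' : (2 : ℝ) ≤ k := by exact_mod_cast hk
  have hP2 : 0 < P - 2 := by linarith
  set D : ℝ := ((k : ℝ) - 1) / 2 + 1 / (P - 2) with hD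
  have hD0 : 0 < D := by
    have : 0 < 1 / (P - 2) := by positivity
    have : 0 < ((k : ℝ) - 1) / 2 := by linarith
    linarith
  have hq2 : 1 / D < q - 2 := by
    rw [div_lt_iff₀ hD0]; exact h
  have hDP : 1 / D < P - 2 := by
    rw [div_lt_iff₀ hD0, hD, mul_add, mul_one_div_cancel hP2.ne']
    have : 0 < (P - 2) * (((k : ℝ) - 1) / 2) := by
      apply mul_pos hP2
      linarith
    linarith
  obtain ⟨u, hu1, hu2⟩ := exists_between (lt_min hq2 hDP)
  have hu0 : 0 < u := lt_trans (by positivity) hu1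
  have huq : u < q - 2 := lt_of_lt_of_le hu2 (min_le_left _ _)
  have huP : u < P - 2 := lt_of_lt_of_le hu2 (min_le_right _ _)
  obtain ⟨C, hC, hmain⟩ := mainF (m := m) k hk hm P (2 + u) (by linarith) (by linarith) A hA (by
    rw [← hD, add_sub_cancel_left]
    rwa [div_lt_iff₀ hD0] at hu1)
  set S : ℝ := (sg (k + m)).real univ with hS
  have hS0 : 0 < S := Pool.Agent.H438R2.BR.T7.sg_pos (by omega)
  refine ⟨S ^ (q - (2 + u)) * C, by positivity, fun F hFm hF hyp => ?_⟩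
  have hb : ∀ z, ‖T (fun z : E (k + m) => F (P2 k m z)) z‖ₑ ≤ ENNReal.ofReal S := by
    intro z
    rw [← ofReal_norm]
    apply ENNReal.ofReal_le_ofReal
    have h1 := T_le (fun z : E (k + m) => F (P2 k m z)) 1 (fun w => hF _) z
    rwa [one_mul] at h1
  calc ∫⁻ z, ‖T (fun z : E (k + m) => F (P2 k m z)) z‖ₑ ^ q
      ≤ ∫⁻ z, ENNReal.ofReal S ^ (q - (2 + u)) *
        ‖T (fun z : E (k + m) => F (P2 k m z)) z‖ₑ ^ (2 + u) := by
        apply lintegral_mono
        intro z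
        have h1 : ‖T (fun z : E (k + m) => F (P2 k m z)) z‖ₑ ^ q =
            ‖T (fun z : E (k + m) => F (P2 k m z)) z‖ₑ ^ (q - (2 + u)) *
            ‖T (fun z : E (k + m) => F (P2 k m z)) z‖ₑ ^ (2 + u) := by
          rw [← ENNReal.rpow_add_of_nonneg _ _ (by linarith) (by linarith)]
          congr 1
          ring
        simp only
        rw [h1]
        exact mul_le_mul_left (ENNReal.rpow_le_rpow (hb z) (by linarith)) _
    _ = ENNReal.ofReal S ^ (q - (2 + u)) *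
        ∫⁻ z, ‖T (fun z : E (k + m) => F (P2 k m z)) z‖ₑ ^ (2 + u) := by
        rw [lintegral_const_mul']
        exact ENNReal.rpow_ne_top_of_nonneg (by linarith) ENNReal.ofReal_ne_top
    _ ≤ ENNReal.ofReal S ^ (q - (2 + u)) * ENNReal.ofReal C := by
        gcongr
        exact hmain F hFm hF hyp
    _ = _ := by
        rw [ENNReal.ofReal_rpow_of_nonneg hS0.le (by linarith), ← ENNReal.ofReal_mul (by positivity)]

/-- the hypothesis from the estimate for the density on the upper half sphere -/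
theorem hypF_of (k : ℕ) (hm : 1 ≤ m) (P : ℝ) (F : E m → ℂ) (hFm : Measurable F) (A : ℝ)
    (h : ∫⁻ z, ‖T (gu k F) z‖ₑ ^ P ≤ ENNReal.ofReal A) : HypF k P F A := by
  intro s hs
  have hgm := gu_meas k F hFm
  have hTm : Measurable fun z : E (1 + m) => ‖T (gu k F) z‖ₑ ^ P := (T_meas' _ hgm).enorm.pow_const P
  have hJm : Measurable fun p : E 1 × E m => J p.1 p.2 := (J_mp 1 m).measurable
  have hGm : Measurable fun r : ℝ => ∫⁻ y : E m, ‖Gf k F r y‖ₑ ^ P :=
    ((Gf_meas k F hFm).enorm.pow_const P).lintegral_prod_right'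
  have e1 : ∫⁻ z, ‖T (gu k F) z‖ₑ ^ P = ∫⁻ r : ℝ, ∫⁻ y : E m, ‖Gf k F r y‖ₑ ^ P := by
    rw [← (J_mp 1 m).lintegral_comp hTm, lintegral_prod]
    · have hm2 : Measurable fun x : E 1 => ∫⁻ y : E m, ‖T (gu k F) (J x y)‖ₑ ^ P :=
        (hTm.comp hJm).lintegral_prod_right'
      rw [← line_mp.lintegral_comp hm2]
      refine lintegral_congr fun r => lintegral_congr fun y => ?_
      rw [T_gu k hm F hFm r y]
    · exact (hTm.comp hJm).aemeasurable
  calc ∫⁻ r in Ioi (1 : ℝ), ∫⁻ y : E m, ‖Gf k F (s * r) y‖ₑ ^ P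
      ≤ ∫⁻ r : ℝ, ∫⁻ y : E m, ‖Gf k F (s * r) y‖ₑ ^ P := setLIntegral_le_lintegral _ _
    _ = ∫⁻ r : ℝ, ∫⁻ y : E m, ‖Gf k F r y‖ₑ ^ P := by
        rcases hs with rfl | rfl
        · simp
        · simp only [neg_one_mul]
          exact (Measure.measurePreserving_neg (volume : Measure ℝ)).lintegral_comp hGm
    _ ≤ _ := by
        rw [← e1]
        exact h

end Pool.Agent.U515.LF
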