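import Mathlib
import Pool.Agent.Helper390.CovarioA
set_option autoImplicit false

/-! The power `t_+^((k-1)/2)` is on `(-1,1)` the Fourier transform of an integrable function. -/

namespace Pool.Agent.U515.LF

open MeasureTheory Set Complex FourierTransform
open scoped ENNReal

/-- the window -/
noncomputable def wk (k : ℕ) (t : ℝ) : ℂ := if 0 < t then ((t ^ (((k : ℝ) - 1) / 2) : ℝ) : ℂ) else 0

/-- the power with half the exponent -/
noncomputable def fb (k : ℕ) (s : ℝ) : ℂ :=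
  (Ioo (0 : ℝ) 1).indicator (fun s => ((s ^ (((k : ℝ) - 3) / 4) : ℝ) : ℂ)) s

theorem fb_meas (k : ℕ) : Measurable (fb k) := by
  unfold fb
  refine Measurable.indicator ?_ measurableSet_Ioo
  fun_prop

theorem pow_int01 (b : ℝ) (hb : -1 < b) : IntegrableOn (fun s : ℝ => s ^ b) (Ioo 0 1) := by
  have h := (intervalIntegral.intervalIntegrable_rpow' (a := 0) (b := 1) hb)
  rw [intervalIntegrable_iff_integrableOn_Ioc_of_le zero_le_one] at h
  exact h.mono_set Ioo_subset_Ioc_self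

theorem fb_int (k : ℕ) : Integrable (fb k) := by
  unfold fb
  rw [integrable_indicator_iff measurableSet_Ioo]
  have hb : -1 < ((k : ℝ) - 3) / 4 := by
    have : (0 : ℝ) ≤ k := Nat.cast_nonneg k
    linarith
  exact (pow_int01 _ hb).ofReal

theorem fb_L2 (k : ℕ) (hk : 2 ≤ k) : MemLp (fb k) 2 := by
  have hk' : (2 : ℝ) ≤ k := by exact_mod_cast hk
  rw [memLp_two_iff_integrable_sq_norm (fb_meas k).aestronglyMeasurable]
  have e : (fun x => ‖fb k x‖ ^ 2) = (Ioo (0 : ℝ) 1).indicator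
      (fun s : ℝ => s ^ (((k : ℝ) - 3) / 2)) := by
    funext s
    unfold fb
    by_cases hs : s ∈ Ioo (0 : ℝ) 1
    · rw [indicator_of_mem hs, indicator_of_mem hs, Complex.norm_real,
        Real.norm_of_nonneg (Real.rpow_nonneg hs.1.le _), ← Real.rpow_natCast,
        ← Real.rpow_mul hs.1.le]
      congr 1
      push_cast
      ring
    · rw [indicator_of_notMem hs, indicator_of_notMem hs]
      simp
  rw [e, integrable_indicator_iff measurableSet_Ioo]
  exact pow_int01 _ (by linarith)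

/-- the convolution -/
noncomputable def gb (k : ℕ) (t : ℝ) : ℂ := ∫ s, fb k s * fb k (t - s)

theorem gb_eq (k : ℕ) : gb k = MeasureTheory.convolution (fb k) (fb k)
    (ContinuousLinearMap.mul ℂ ℂ) volume := by
  funext t
  unfold gb MeasureTheory.convolution
  rfl

theorem gb_neg (k : ℕ) (t : ℝ) (ht : t ≤ 0) : gb k t = 0 := by
  unfold gb
  rw [integral_eq_zero_of_ae]
  refine Filter.Eventually.of_forall fun s => ?_
  simp only [Pi.zero_apply, mul_eq_zero]
  unfold fb
  by_cases hs : s ∈ Ioo (0 : ℝ) 1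
  · right
    apply indicator_of_notMem
    intro h
    linarith [h.1, hs.1]
  · left
    exact indicator_of_notMem hs _

/-- the constant -/
noncomputable def cb (k : ℕ) : ℂ :=
  Complex.betaIntegral ((((k : ℝ) + 1) / 4 : ℝ) : ℂ) ((((k : ℝ) + 1) / 4 : ℝ) : ℂ)

theorem cb_ne (k : ℕ) : cb k ≠ 0 := by
  have hpos : (0 : ℝ) < ((k : ℝ) + 1) / 4 := by positivity
  have h := Complex.Gamma_mul_Gamma_eq_betaIntegral (s := ((((k : ℝ) + 1) / 4 : ℝ) : ℂ))
    (t := ((((k : ℝ) + 1) / 4 : ℝ) : ℂ)) (by rw [Complex.ofReal_re]; exact hpos)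
    (by rw [Complex.ofReal_re]; exact hpos)
  intro hc
  unfold cb at hc
  rw [hc, mul_zero] at h
  have h1 := Complex.Gamma_ne_zero_of_re_pos (s := ((((k : ℝ) + 1) / 4 : ℝ) : ℂ))
    (by rw [Complex.ofReal_re]; exact hpos)
  exact (mul_ne_zero h1 h1) h

theorem gb_pos (k : ℕ) (t : ℝ) (ht : 0 < t) (ht1 : t < 1) :
    gb k t = cb k * ((t ^ (((k : ℝ) - 1) / 2) : ℝ) : ℂ) := by
  have hb := Complex.betaIntegral_scaled ((((k : ℝ) + 1) / 4 : ℝ) : ℂ)
    ((((k : ℝ) + 1) / 4 : ℝ) : ℂ) ht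
  have e1 : gb k t = ∫ s in Ioc (0 : ℝ) t, (s : ℂ) ^ (((((k : ℝ) + 1) / 4 : ℝ) : ℂ) - 1) *
      ((t : ℂ) - s) ^ (((((k : ℝ) + 1) / 4 : ℝ) : ℂ) - 1) := by
    unfold gb
    rw [integral_Ioc_eq_integral_Ioo, ← integral_indicator measurableSet_Ioo]
    refine integral_congr_ae (Filter.Eventually.of_forall fun s => ?_)
    simp only
    by_cases hs : s ∈ Ioo (0 : ℝ) t
    · have m1 : s ∈ Ioo (0 : ℝ) 1 := ⟨hs.1, hs.2.trans ht1⟩
      have m2 : t - s ∈ Ioo (0 : ℝ) 1 := ⟨by linarith [hs.2], by linarith [hs.1]⟩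
      rw [indicator_of_mem hs]
      unfold fb
      rw [indicator_of_mem m1, indicator_of_mem m2, Complex.ofReal_cpow m1.1.le,
        Complex.ofReal_cpow m2.1.le]
      have e2 : (((((k : ℝ) + 1) / 4 : ℝ) : ℂ) - 1) = ((((k : ℝ) - 3) / 4 : ℝ) : ℂ) := by
        push_cast; ring
      rw [e2]
      push_cast
      rfl
    · rw [indicator_of_notMem hs]
      unfold fb
      by_cases h1 : 0 < s
      · have h2 : t ≤ s := by
          by_contra hc
          exact hs ⟨h1, not_le.1 hc⟩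
        have m2 : t - s ∉ Ioo (0 : ℝ) 1 := fun h => by linarith [h.1]
        rw [indicator_of_notMem m2, mul_zero]
      · have m1 : s ∉ Ioo (0 : ℝ) 1 := fun h => h1 h.1
        rw [indicator_of_notMem m1, zero_mul]
  rw [e1, ← intervalIntegral.integral_of_le ht.le, hb, mul_comm]
  unfold cb
  congr 1
  rw [Complex.ofReal_cpow ht.le]
  congr 1
  push_cast
  ring

theorem gb_int (k : ℕ) : Integrable (gb k) := by
  rw [gb_eq]
  exact (fb_int k).integrable_convolution _ (fb_int k)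

theorem gb_F (k : ℕ) (hk : 2 ≤ k) : Integrable (𝓕 (gb k)) := by
  obtain ⟨h1, _⟩ := Pool.Agent.Helper390.Covario.plancherel (fb_int k) (fb_L2 k hk)
  have h2 : 𝓕 (gb k) = fun ξ => 𝓕 (fb k) ξ * 𝓕 (fb k) ξ := by
    funext ξ
    rw [gb_eq]
    exact Real.fourier_mul_convolution_eq (fb_int k) (fb_int k) ξ
  rw [h2]
  have h3 := h1.integrable_mul h1
  exact h3

theorem gb_val (k : ℕ) (t : ℝ) (ht1 : t < 1) : gb k t = cb k * wk k t := by
  unfold wk
  by_cases ht : 0 < t
  · rw [if_pos ht, gb_pos k t ht ht1]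
  · rw [if_neg ht, mul_zero, gb_neg k t (not_lt.1 ht)]

theorem wk_cont (k : ℕ) (hk : 2 ≤ k) : Continuous (wk k) := by
  have hk' : (2 : ℝ) ≤ k := by exact_mod_cast hk
  have e : wk k = fun t => (((max t 0) ^ (((k : ℝ) - 1) / 2) : ℝ) : ℂ) := by
    funext t
    unfold wk
    by_cases ht : 0 < t
    · rw [if_pos ht, max_eq_left ht.le]
    · rw [if_neg ht, max_eq_right (not_lt.1 ht), Real.zero_rpow (by linarith)]
      simp
  rw [e]
  refine Complex.continuous_ofReal.comp ?_
  exact (continuous_id.max continuous_const).rpow_const fun x => Or.inr (by linarith)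

theorem window (k : ℕ) (hk : 2 ≤ k) : ∃ φ : ℝ → ℂ, Measurable φ ∧ Integrable φ ∧ ∀ t : ℝ, t < 1 →
    wk k t = ∫ τ, φ τ * Complex.exp ((2 * Real.pi * τ * t : ℝ) * I) := by
  have hcF : Continuous (𝓕 (gb k)) :=
    VectorFourier.fourierIntegral_continuous Real.continuous_fourierChar continuous_inner (gb_int k)
  refine ⟨fun τ => (cb k)⁻¹ * 𝓕 (gb k) τ, (continuous_const.mul hcF).measurable,
    (gb_F k hk).const_mul _, fun t ht => ?_⟩
  have hc : ContinuousAt (gb k) t := by
    have h1 : ContinuousAt (fun t => cb k * wk k t) t :=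
      (continuous_const.mul (wk_cont k hk)).continuousAt
    refine h1.congr ?_
    filter_upwards [Iio_mem_nhds ht] with x hx
    exact (gb_val k x hx).symm
  have h2 := (gb_int k).fourierInv_fourier_eq (gb_F k hk) hc
  rw [gb_val k t ht] at h2
  have h3 : wk k t = (cb k)⁻¹ * 𝓕⁻ (𝓕 (gb k)) t := by
    rw [h2, ← mul_assoc, inv_mul_cancel₀ (cb_ne k), one_mul]
  rw [h3, Real.fourierInv_eq', ← integral_const_mul]
  refine integral_congr_ae (Filter.Eventually.of_forall fun τ => ?_)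
  simp only [smul_eq_mul]
  have e3 : Complex.exp ((2 * Real.pi * inner ℝ τ t : ℝ) * I) =
      Complex.exp ((2 * Real.pi * τ * t : ℝ) * I) := by
    congr 2
    have : inner ℝ τ t = τ * t := by simp [mul_comm]
    rw [this]
    push_cast
    ring
  rw [e3]
  ring

end Pool.Agent.U515.LF
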