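import Mathlib
import Pool.Agent.U515.LF.A2
import Pool.Agent.U515.LF.A3
set_option autoImplicit false

/-! Multiplication by Fourier transforms of integrable functions of one coordinate; the lifting
estimate. -/

namespace Pool.Agent.U515.LF

open MeasureTheory Set Complex
open scoped ENNReal RealInnerProductSpace
open Pool.Agent.TH335.RF
open Pool.Agent.H789R2.FR (E sg T sg_finite)
open Pool.Agent.H438R2.BR (Phi J J_mp J_inner)
open Pool.Agent.H438R2.BR.T10 (e0 e0_norm)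
open Pool.Agent.H438R2.PD (P1 P2 P1_meas P2_meas T_meas' T_le T_congr P1_lt)

/-- Jensen -/
theorem jensen (φ : ℝ → ℂ) (hφm : Measurable φ) (H : ℝ → ℝ≥0∞) (hH : Measurable H) (P : ℝ)
    (hP : 1 < P) : (∫⁻ τ, ‖φ τ‖ₑ * H τ) ^ P ≤
    (∫⁻ τ, ‖φ τ‖ₑ) ^ (P - 1) * ∫⁻ τ, ‖φ τ‖ₑ * H τ ^ P := by
  have hP0 : 0 < P := by linarith
  have hpq : Real.HolderConjugate (P / (P - 1)) P := (Real.HolderConjugate.conjExponent hP).symm
  have h1 := ENNReal.lintegral_mul_le_Lp_mul_Lq (volume : Measure ℝ) hpq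
    (f := fun τ => ‖φ τ‖ₑ ^ ((P - 1) / P)) (g := fun τ => ‖φ τ‖ₑ ^ (1 / P) * H τ)
    (hφm.enorm.pow_const _).aemeasurable ((hφm.enorm.pow_const _).mul hH).aemeasurable
  have hP1 : 0 < P - 1 := by linarith
  have e1 : ∀ τ, ((fun τ => ‖φ τ‖ₑ ^ ((P - 1) / P)) * fun τ => ‖φ τ‖ₑ ^ (1 / P) * H τ) τ =
      ‖φ τ‖ₑ * H τ := by
    intro τ
    simp only [Pi.mul_apply]
    rw [← mul_assoc, ← ENNReal.rpow_add_of_nonneg _ _ (by positivity) (by positivity)]
    rw [show (P - 1) / P + 1 / P = 1 by field_simp; ring, ENNReal.rpow_one]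
  have e2 : ∀ τ, (‖φ τ‖ₑ ^ ((P - 1) / P)) ^ (P / (P - 1)) = ‖φ τ‖ₑ := by
    intro τ
    rw [← ENNReal.rpow_mul, show (P - 1) / P * (P / (P - 1)) = 1 by field_simp, ENNReal.rpow_one]
  have e3 : ∀ τ, (‖φ τ‖ₑ ^ (1 / P) * H τ) ^ P = ‖φ τ‖ₑ * H τ ^ P := by
    intro τ
    rw [ENNReal.mul_rpow_of_nonneg _ _ hP0.le, ← ENNReal.rpow_mul, one_div_mul_cancel hP0.ne',
      ENNReal.rpow_one]
  simp only [e1, e2, e3] at h1
  calc (∫⁻ τ, ‖φ τ‖ₑ * H τ) ^ P ≤ ((∫⁻ τ, ‖φ τ‖ₑ) ^ (1 / (P / (P - 1))) *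
        (∫⁻ τ, ‖φ τ‖ₑ * H τ ^ P) ^ (1 / P)) ^ P := ENNReal.rpow_le_rpow h1 hP0.le
    _ = _ := by
        rw [ENNReal.mul_rpow_of_nonneg _ _ hP0.le, ← ENNReal.rpow_mul, ← ENNReal.rpow_mul,
          one_div_mul_cancel hP0.ne', ENNReal.rpow_one]
        congr 2
        field_simp

theorem mult {n : ℕ} (e : E n) (φ : ℝ → ℂ) (hφm : Measurable φ) (hφ : Integrable φ) (P : ℝ)
    (hP : 1 < P) (G : E n → ℂ) (hG : Measurable G) (hb : ∀ z, ‖G z‖ ≤ 1) (W : E n → ℂ)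
    (hW : ∀ᵐ z ∂(sg n), W z =
      (∫ τ, φ τ * Complex.exp ((2 * Real.pi * τ * ⟪e, z⟫ : ℝ) * I)) * G z) :
    ∫⁻ x, ‖T W x‖ₑ ^ P ≤ (∫⁻ τ, ‖φ τ‖ₑ) ^ P * ∫⁻ x, ‖T G x‖ₑ ^ P := by
  have hfin : IsFiniteMeasure (sg n) := sg_finite n
  have hP0 : 0 < P := by linarith
  -- the representation
  have h1 : ∀ x, T W x = ∫ τ, φ τ * T G (x - (2 * Real.pi * τ) • e) := by
    intro x
    have e1 : T W x = ∫ z, (∫ τ, Complex.exp (-((⟪x, z⟫ : ℝ) : ℂ) * I) *
        (φ τ * Complex.exp ((2 * Real.pi * τ * ⟪e, z⟫ : ℝ) * I) * G z)) ∂(sg n) := by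
      unfold T
      refine integral_congr_ae ?_
      filter_upwards [hW] with z hz
      rw [hz, integral_const_mul, integral_mul_const]
    rw [e1, integral_integral_swap]
    · refine integral_congr_ae (Filter.Eventually.of_forall fun τ => ?_)
      simp only
      unfold T
      rw [← integral_const_mul]
      refine integral_congr_ae (Filter.Eventually.of_forall fun z => ?_)
      simp only
      rw [inner_sub_left, real_inner_smul_left]
      have e2 : Complex.exp (-((⟪x, z⟫ - 2 * Real.pi * τ * ⟪e, z⟫ : ℝ) : ℂ) * I) =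
          Complex.exp (-((⟪x, z⟫ : ℝ) : ℂ) * I) *
          Complex.exp ((2 * Real.pi * τ * ⟪e, z⟫ : ℝ) * I) := by
        rw [← Complex.exp_add]
        congr 1
        push_cast
        ring
      rw [e2]
      ring
    · have hprod : Integrable (fun p : E n × ℝ => (1 : ℂ) * φ p.2)
          ((sg n).prod volume) := Integrable.mul_prod (integrable_const (1 : ℂ)) hφ
      refine hprod.mono ?_ ?_
      · have m1 : Measurable fun p : E n × ℝ => (⟪x, p.1⟫ : ℝ) := by fun_prop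
        have m2 : Measurable fun p : E n × ℝ => (⟪e, p.1⟫ : ℝ) := by fun_prop
        have m3 : Measurable fun p : E n × ℝ => Complex.exp (-((⟪x, p.1⟫ : ℝ) : ℂ) * I) :=
          Complex.measurable_exp.comp ((Complex.measurable_ofReal.comp m1).neg.mul_const I)
        have m4 : Measurable fun p : E n × ℝ =>
            Complex.exp ((2 * Real.pi * p.2 * ⟪e, p.1⟫ : ℝ) * I) :=
          Complex.measurable_exp.comp ((Complex.measurable_ofReal.comp
            ((measurable_snd.const_mul _).mul m2)).mul_const I)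
        exact (m3.mul (((hφm.comp measurable_snd).mul m4).mul
          (hG.comp measurable_fst))).aestronglyMeasurable
      · refine Filter.Eventually.of_forall fun p => ?_
        simp only [Function.uncurry, norm_mul, one_mul, norm_one]
        have n1 : ‖Complex.exp (-((⟪x, p.1⟫ : ℝ) : ℂ) * I)‖ = 1 :=
          Pool.Agent.H438R2.PD.exp_norm _
        rw [n1, Complex.norm_exp_ofReal_mul_I, one_mul, mul_one]
        calc ‖φ p.2‖ * ‖G p.1‖ ≤ ‖φ p.2‖ * 1 := by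
              gcongr
              exact hb _
          _ = _ := mul_one _
  have hTm : Measurable (T G) := T_meas' G hG
  have hmm : Measurable fun p : E n × ℝ => ‖φ p.2‖ₑ * ‖T G (p.1 - (2 * Real.pi * p.2) • e)‖ₑ ^ P := by
    have m1 : Measurable fun p : E n × ℝ => p.1 - (2 * Real.pi * p.2) • e := by fun_prop
    exact (hφm.comp measurable_snd).enorm.mul ((hTm.comp m1).enorm.pow_const P)
  calc ∫⁻ x, ‖T W x‖ₑ ^ P
      ≤ ∫⁻ x, (∫⁻ τ, ‖φ τ‖ₑ * ‖T G (x - (2 * Real.pi * τ) • e)‖ₑ) ^ P := by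
        apply lintegral_mono
        intro x
        simp only
        rw [h1 x]
        refine ENNReal.rpow_le_rpow ((enorm_integral_le_lintegral_enorm _).trans (le_of_eq ?_)) hP0.le
        refine lintegral_congr fun τ => ?_
        rw [enorm_mul]
    _ ≤ ∫⁻ x, (∫⁻ τ, ‖φ τ‖ₑ) ^ (P - 1) *
          ∫⁻ τ, ‖φ τ‖ₑ * ‖T G (x - (2 * Real.pi * τ) • e)‖ₑ ^ P := by
        apply lintegral_mono
        intro x
        refine jensen φ hφm _ ?_ P hP
        have m1 : Measurable fun τ : ℝ => x - (2 * Real.pi * τ) • e := by fun_prop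
        exact (hTm.comp m1).enorm
    _ = (∫⁻ τ, ‖φ τ‖ₑ) ^ (P - 1) *
          ∫⁻ x, ∫⁻ τ, ‖φ τ‖ₑ * ‖T G (x - (2 * Real.pi * τ) • e)‖ₑ ^ P := by
        rw [lintegral_const_mul]
        exact hmm.lintegral_prod_right'
    _ = (∫⁻ τ, ‖φ τ‖ₑ) ^ (P - 1) *
          ∫⁻ τ, ‖φ τ‖ₑ * ∫⁻ x, ‖T G x‖ₑ ^ P := by
        rw [lintegral_lintegral_swap hmm.aemeasurable]
        congr 1
        refine lintegral_congr fun τ => ?_
        rw [lintegral_const_mul' _ _ (by simp)]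
        congr 1
        exact lintegral_sub_right_eq_self (fun x => ‖T G x‖ₑ ^ P) ((2 * Real.pi * τ) • e)
    _ = _ := by
        rw [lintegral_mul_const _ hφm.enorm, ← mul_assoc]
        congr 1
        conv_rhs => rw [show P = (P - 1) + 1 by ring]
        rw [ENNReal.rpow_add_of_nonneg _ _ (by linarith) (by norm_num), ENNReal.rpow_one]

variable {m : ℕ}

theorem J_P {k m : ℕ} (z : E (k + m)) : J (P1 k m z) (P2 k m z) = z := by
  ext i
  refine Fin.addCases (fun j => ?_) (fun j => ?_) i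
  · simp [J, P1, Fin.append_left]
  · simp [J, P2, Fin.append_right]

theorem norm_split {k m : ℕ} (z : E (k + m)) : ‖z‖ ^ 2 = ‖P1 k m z‖ ^ 2 + ‖P2 k m z‖ ^ 2 := by
  conv_lhs => rw [← J_P z]
  rw [← real_inner_self_eq_norm_sq, J_inner, real_inner_self_eq_norm_sq,
    real_inner_self_eq_norm_sq]

theorem E1 (x : E 1) : x = x 0 • e0 := by
  ext i
  fin_cases i
  simp [e0]

/-- the vector of the first coordinate -/
noncomputable def ev (m : ℕ) : E (1 + m) := J e0 (0 : E m)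

theorem ev_inner (z : E (1 + m)) : (⟪ev m, z⟫ : ℝ) = (P1 1 m z) 0 := by
  conv_lhs => rw [← J_P z]
  unfold ev
  rw [J_inner, inner_zero_left, add_zero]
  conv_lhs => rw [E1 (P1 1 m z)]
  rw [real_inner_smul_right, real_inner_self_eq_norm_sq, e0_norm]
  simp

theorem gu_window (k : ℕ) (hm : 1 ≤ m) (G : E (1 + m) → ℂ) :
    ∀ᵐ z ∂(sg (1 + m)), gu k (fun y => G (up y)) z = wk k (⟪ev m, z⟫ : ℝ) * G z ∧
      (⟪ev m, z⟫ : ℝ) < 1 := by
  filter_upwards [Pool.Agent.H789R2.FR.sg_ae (1 + m), P1_lt 1 m le_rfl hm] with z hz hlt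
  rw [ev_inner]
  set t : ℝ := (P1 1 m z) 0 with ht
  have hP1 : P1 1 m z = t • e0 := E1 _
  have hn1 : ‖P1 1 m z‖ = |t| := by rw [hP1, norm_smul, e0_norm, mul_one, Real.norm_eq_abs]
  have htlt : |t| < 1 := by rw [← hn1]; exact hlt
  have ht1 : t < 1 := (abs_lt.1 htlt).2
  refine ⟨?_, ht1⟩
  have hw : wt (P2 1 m z) = |t| := by
    unfold wt
    have h1 := norm_split z
    rw [hz, hn1] at h1
    have h2 : 1 - ‖P2 1 m z‖ ^ 2 = |t| ^ 2 := by linarith
    rw [h2, Real.sqrt_sq (abs_nonneg t)]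
  unfold gu wk
  by_cases h0 : 0 < t
  · have hmem : z ∈ {z : E (1 + m) | 0 < (P1 1 m z) 0 ∧ (P1 1 m z) 0 ≤ 1} := ⟨h0, ht1.le⟩
    rw [indicator_of_mem hmem, if_pos h0]
    have hup : up (P2 1 m z) = z := by
      unfold up
      rw [hw, abs_of_pos h0, ← hP1, J_P]
    simp only
    rw [hup]
  · have hmem : z ∉ {z : E (1 + m) | 0 < (P1 1 m z) 0 ∧ (P1 1 m z) 0 ≤ 1} := fun h => h0 h.1
    rw [indicator_of_notMem hmem, if_neg h0, zero_mul]

/-- the lifting estimate -/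
theorem lift_T (k : ℕ) (hk : 2 ≤ k) (hm : 1 ≤ m) (P q : ℝ) (hP : 2 < P)
    (A : ℝ) (hA : 0 < A) (h : 1 < (q - 2) * (((k : ℝ) - 1) / 2 + 1 / (P - 2))) :
    ∃ C : ℝ, 0 < C ∧ ∀ (G : E (1 + m) → ℂ), Measurable G → (∀ y, ‖G y‖ ≤ 1) →
    ∫⁻ z, ‖T G z‖ₑ ^ P ≤ ENNReal.ofReal A →
    ∫⁻ z, ‖T (fun z : E (k + m) => G (up (P2 k m z))) z‖ₑ ^ q ≤ ENNReal.ofReal C := by
  obtain ⟨φ, hφm, hφ, hw⟩ := window k hk
  set N : ℝ := ∫ τ, ‖φ τ‖ with hN
  have hN0 : 0 ≤ N := integral_nonneg fun _ => norm_nonneg _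
  have hNe : ∫⁻ τ, ‖φ τ‖ₑ = ENNReal.ofReal N := by
    rw [hN, ofReal_integral_norm_eq_lintegral_enorm hφ]
  set A' : ℝ := N ^ P * A + 1 with hA'
  have hA'0 : 0 < A' := by positivity
  obtain ⟨C, hC, hmain⟩ := T_boundF (m := m) k hk hm P q hP A' hA'0 h
  refine ⟨C, hC, fun G hGm hG hT => ?_⟩
  refine hmain (fun y => G (up y)) (hGm.comp up_meas) (fun y => hG _) ?_
  refine hypF_of k hm P _ (hGm.comp up_meas) A' ?_
  have hae := gu_window k hm G
  have h1 : ∀ᵐ z ∂(sg (1 + m)), gu k (fun y => G (up y)) z =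
      (∫ τ, φ τ * Complex.exp ((2 * Real.pi * τ * ⟪ev m, z⟫ : ℝ) * I)) * G z := by
    filter_upwards [hae] with z hz
    rw [hz.1, hw _ hz.2]
  refine (mult (ev m) φ hφm hφ P (by linarith) G hGm hG _ h1).trans ?_
  rw [hNe, ENNReal.ofReal_rpow_of_nonneg hN0 (by linarith)]
  calc ENNReal.ofReal (N ^ P) * ∫⁻ x, ‖T G x‖ₑ ^ P ≤ ENNReal.ofReal (N ^ P) * ENNReal.ofReal A := by
        gcongr
    _ = ENNReal.ofReal (N ^ P * A) := by rw [← ENNReal.ofReal_mul (by positivity)]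
    _ ≤ _ := ENNReal.ofReal_le_ofReal (by rw [hA']; linarith)

end Pool.Agent.U515.LF
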