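import Mathlib
import Pool.Agent.U515.LF.A4
set_option autoImplicit false

/-! Lifting along an orthonormal family, modulations, ridge functions, orthogonal splitting. -/

namespace Pool.Agent.U515.LF

open MeasureTheory Set Complex
open scoped ENNReal RealInnerProductSpace
open Pool.Agent.TH335.RF
open Pool.Agent.H789R2.FR (E sg T sg_finite)
open Pool.Agent.H438R2.BR (Phi J J_mp J_inner)
open Pool.Agent.H438R2.BR.T10 (e0 e0_norm)
open Pool.Agent.H438R2.PD (P1 P2 P1_meas P2_meas T_meas' T_le T_congr P1_lt T_comp)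

/-- the point `(√(1 - ∑ ⟪v_i, x⟫²), ⟪v_1, x⟫, …, ⟪v_m, x⟫)` of `ℝ^(1+m)` -/
noncomputable def shadow {n m : ℕ} (v : Fin m → E n) (x : E n) : E (1 + m) :=
  WithLp.toLp 2 (Fin.append (fun _ : Fin 1 => √(1 - ∑ i, (⟪v i, x⟫ : ℝ) ^ 2))
    fun i => (⟪v i, x⟫ : ℝ))

theorem rot {k m : ℕ} (v : Fin m → E (k + m)) (hv : Orthonormal ℝ v) :
    ∃ Λ : E (k + m) ≃ₗᵢ[ℝ] E (k + m), ∀ x i, (P2 k m (Λ x)) i = (⟪v i, x⟫ : ℝ) := by
  set v' : Fin (k + m) → E (k + m) := Fin.append (fun _ => 0) v with hv'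
  set s : Set (Fin (k + m)) := Set.range (Fin.natAdd k) with hs
  have h1 : Orthonormal ℝ (fun i : s => v' i) := by
    constructor
    · rintro ⟨_, ⟨i, rfl⟩⟩
      simp only [hv', Fin.append_right]
      exact hv.1 i
    · rintro ⟨_, ⟨i, rfl⟩⟩ ⟨_, ⟨j, rfl⟩⟩ hij
      simp only [hv', Fin.append_right]
      refine hv.2 fun h => hij ?_
      rw [h]
  obtain ⟨b, hb⟩ := h1.exists_orthonormalBasis_extension_of_card_eq (by simp)
  refine ⟨b.repr, fun x i => ?_⟩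
  have h2 : (P2 k m (b.repr x)) i = (b.repr x) (Fin.natAdd k i) := rfl
  rw [h2, b.repr_apply_apply, hb _ ⟨i, rfl⟩, Fin.addCases_right]

theorem shadow_up {k m : ℕ} (v : Fin m → E (k + m)) (Λ : E (k + m) ≃ₗᵢ[ℝ] E (k + m))
    (h : ∀ x i, (P2 k m (Λ x)) i = (⟪v i, x⟫ : ℝ)) (x : E (k + m)) :
    shadow v x = up (P2 k m (Λ x)) := by
  have h1 : wt (P2 k m (Λ x)) = √(1 - ∑ i, (⟪v i, x⟫ : ℝ) ^ 2) := by
    unfold wt
    rw [EuclideanSpace.real_norm_sq_eq]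
    simp only [h]
  unfold shadow up
  rw [h1]
  ext i
  refine Fin.addCases (fun j => ?_) (fun j => ?_) i
  · simp only [J, Fin.append_left]
    have : j = 0 := Subsingleton.elim _ _
    subst this
    simp [e0]
  · simp only [J, Fin.append_right]
    exact (h x j).symm

theorem shadow_meas {n m : ℕ} (v : Fin m → E n) : Measurable (shadow v) := by
  have h : Continuous (shadow v) := by
    unfold shadow
    refine (PiLp.continuous_toLp 2 _).comp (continuous_pi fun i => ?_)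
    refine Fin.addCases (fun j => ?_) (fun j => ?_) i
    · simp only [Fin.append_left]
      fun_prop
    · simp only [Fin.append_right]
      fun_prop
  exact h.measurable

/-- invariance of the norm under rotations -/
theorem T_rot {n : ℕ} (L : E n ≃ₗᵢ[ℝ] E n) (g : E n → ℂ) (hg : Measurable g) (p : ℝ) :
    ∫⁻ x, ‖T (fun w => g (L w)) x‖ₑ ^ p = ∫⁻ x, ‖T g x‖ₑ ^ p := by
  simp_rw [T_comp]
  exact L.measurePreserving.lintegral_comp ((T_meas' g hg).enorm.pow_const p)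

/-- invariance of the norm under modulations -/
theorem T_mod {n : ℕ} (η : E n) (g : E n → ℂ) (p : ℝ) :
    ∫⁻ x, ‖T (fun w => Complex.exp ((⟪η, w⟫ : ℝ) * I) * g w) x‖ₑ ^ p = ∫⁻ x, ‖T g x‖ₑ ^ p := by
  have h1 : ∀ x, T (fun w => Complex.exp ((⟪η, w⟫ : ℝ) * I) * g w) x = T g (x - η) := by
    intro x
    unfold T
    refine integral_congr_ae (Filter.Eventually.of_forall fun w => ?_)
    simp only
    rw [← mul_assoc, ← Complex.exp_add, inner_sub_left]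
    congr 2
    push_cast
    ring
  simp_rw [h1]
  exact lintegral_sub_right_eq_self (fun x => ‖T g x‖ₑ ^ p) η

/-- the lifting estimate for the lift along an orthonormal family -/
theorem lift_shadow (k m : ℕ) (hk : 2 ≤ k) (hm : 1 ≤ m) (P q : ℝ) (hP : 2 < P)
    (A : ℝ) (hA : 0 < A) (h : 1 < (q - 2) * (((k : ℝ) - 1) / 2 + 1 / (P - 2))) :
    ∃ C : ℝ, 0 < C ∧ ∀ (v : Fin m → E (k + m)), Orthonormal ℝ v →
    ∀ (G : E (1 + m) → ℂ), Measurable G → (∀ y, ‖G y‖ ≤ 1) →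
    ∫⁻ z, ‖T G z‖ₑ ^ P ≤ ENNReal.ofReal A →
    ∫⁻ z, ‖T (fun x : E (k + m) => G (shadow v x)) z‖ₑ ^ q ≤ ENNReal.ofReal C := by
  obtain ⟨C, hC, hT⟩ := lift_T (m := m) k hk hm P q hP A hA h
  refine ⟨C, hC, fun v hv G hGm hG hGA => ?_⟩
  obtain ⟨Λ, hΛ⟩ := rot v hv
  have e1 : (fun x : E (k + m) => G (shadow v x)) = fun x => (fun z => G (up (P2 k m z))) (Λ x) := by
    funext x
    rw [shadow_up v Λ hΛ]
  have hm1 : Measurable fun z : E (k + m) => G (up (P2 k m z)) :=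
    hGm.comp (up_meas.comp (P2_meas k m))
  rw [e1, T_rot Λ _ hm1]
  exact hT G hGm hG hGA

theorem full_iff (n : ℕ) (hn : 2 ≤ n) (q : ℝ) (hq : 2 * (n : ℝ) / (n - 1) < q) :
    1 < (q - 2) * (((n : ℝ) - 1) / 2) := by
  have hn' : (2 : ℝ) ≤ n := by exact_mod_cast hn
  rw [div_lt_iff₀ (by linarith)] at hq
  nlinarith

/-- ridge functions -/
theorem ridge_T (n : ℕ) (hn : 3 ≤ n) (q : ℝ) (hq : 2 * (n : ℝ) / (n - 1) < q) :
    ∃ C : ℝ, 0 < C ∧ ∀ (ω : E n) (h : ℝ → ℂ), Measurable h → (∀ s, ‖h s‖ ≤ 1) →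
    ∫⁻ z, ‖T (fun x : E n => h ⟪ω, x⟫) z‖ₑ ^ q ≤ ENNReal.ofReal C := by
  obtain ⟨k, rfl⟩ : ∃ k, n = k + 1 := ⟨n - 1, by omega⟩
  have hk : 2 ≤ k := by omega
  have h1 := full_iff (k + 1) (by omega) q hq
  obtain ⟨C, hC, hT⟩ := T_bound (m := 1) k hk le_rfl 4 q (by norm_num) (hyp_one k hk) (by
    push_cast at h1
    norm_num at h1 ⊢
    have e : (k : ℝ) / 2 = ((k : ℝ) - 1) / 2 + 1 / 2 := by ring
    rw [e] at h1
    exact h1)
  refine ⟨C, hC, fun ω h hh hb => ?_⟩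
  -- a unit vector in the direction of `ω`
  obtain ⟨v, c, hv, hω⟩ : ∃ (v : E (k + 1)) (c : ℝ), ‖v‖ = 1 ∧ ω = c • v := by
    by_cases h0 : ω = 0
    · obtain ⟨v, hv⟩ := exists_norm_eq (E (k + 1)) (zero_le_one)
      exact ⟨v, 0, hv, by rw [h0, zero_smul]⟩
    · refine ⟨‖ω‖⁻¹ • ω, ‖ω‖, ?_, ?_⟩
      · rw [norm_smul, norm_inv, norm_norm, inv_mul_cancel₀ (norm_ne_zero_iff.2 h0)]
      · rw [smul_smul, mul_inv_cancel₀ (norm_ne_zero_iff.2 h0), one_smul]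
  have hvo : Orthonormal ℝ (fun _ : Fin 1 => v) := by
    refine ⟨fun _ => hv, fun i j hij => ?_⟩
    exact absurd (Subsingleton.elim i j) hij
  obtain ⟨Λ, hΛ⟩ := rot _ hvo
  set F : E 1 → ℂ := fun y => h (c * y 0) with hF
  have hc0 : Measurable fun y : E 1 => c * y 0 := by fun_prop
  have hFm : Measurable F := hh.comp hc0
  have e1 : (fun x : E (k + 1) => h (⟪ω, x⟫ : ℝ)) = fun x => (fun z => F (P2 k 1 z)) (Λ x) := by
    funext x
    simp only [hF]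
    rw [hΛ, hω, real_inner_smul_left]
  have hm1 : Measurable fun z : E (k + 1) => F (P2 k 1 z) := hFm.comp (P2_meas k 1)
  rw [e1, T_rot Λ _ hm1]
  exact hT F hFm fun y => hb _

/-- orthogonal splitting -/
theorem split {k m : ℕ} (u : Fin k → E (k + m)) (hu : Orthonormal ℝ u) :
    ∃ v : Fin m → E (k + m), Orthonormal ℝ v ∧
      (∀ x : E (k + m), ∑ j, (⟪u j, x⟫ : ℝ) ^ 2 + ∑ i, (⟪v i, x⟫ : ℝ) ^ 2 = ‖x‖ ^ 2) ∧
      ∀ w : E (k + m), (∀ j, (⟪u j, w⟫ : ℝ) = 0) → ∀ x : E (k + m),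
        (⟪w, x⟫ : ℝ) = ∑ i, (⟪v i, w⟫ : ℝ) * ⟪v i, x⟫ := by
  set v' : Fin (k + m) → E (k + m) := Fin.append u (fun _ => 0) with hv'
  set s : Set (Fin (k + m)) := Set.range (Fin.castAdd m) with hs
  have h1 : Orthonormal ℝ (fun i : s => v' i) := by
    constructor
    · rintro ⟨_, ⟨i, rfl⟩⟩
      simp only [hv', Fin.append_left]
      exact hu.1 i
    · rintro ⟨_, ⟨i, rfl⟩⟩ ⟨_, ⟨j, rfl⟩⟩ hij
      simp only [hv', Fin.append_left]
      refine hu.2 fun h => hij ?_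
      rw [h]
  obtain ⟨b, hb⟩ := h1.exists_orthonormalBasis_extension_of_card_eq (by simp)
  have hbu : ∀ j, b (Fin.castAdd m j) = u j := by
    intro j
    rw [hb _ ⟨j, rfl⟩, Fin.addCases_left]
  refine ⟨fun i => b (Fin.natAdd k i), ?_, ?_, ?_⟩
  · exact b.orthonormal.comp _ (Fin.natAdd_injective m k)
  · intro x
    have h2 := b.sum_sq_norm_inner_right x
    rw [Fin.sum_univ_add] at h2
    simp only [hbu, Real.norm_eq_abs, sq_abs] at h2
    exact h2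
  · intro w hw x
    have h2 := b.sum_inner_mul_inner w x
    rw [Fin.sum_univ_add] at h2
    simp only [hbu] at h2
    rw [← h2]
    have h3 : ∑ j, (⟪w, u j⟫ : ℝ) * ⟪u j, x⟫ = 0 := by
      refine Finset.sum_eq_zero fun j _ => ?_
      rw [real_inner_comm, hw j, zero_mul]
    rw [h3, zero_add]
    refine Finset.sum_congr rfl fun i _ => ?_
    rw [real_inner_comm]

end Pool.Agent.U515.LF
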