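import Mathlib
import Pool.Agent.U515.LF.A5
set_option autoImplicit false

/-! Functions of sums of norms of orthogonal blocks and a linear function. -/

namespace Pool.Agent.U515.LF

open MeasureTheory Set Complex
open scoped ENNReal RealInnerProductSpace
open Pool.Agent.TH335.RF
open Pool.Agent.H789R2.FR (E sg T sg_finite sg_ae)
open Pool.Agent.H438R2.BR (Phi J J_mp J_inner)
open Pool.Agent.H438R2.BR.T10 (e0 e0_norm)
open Pool.Agent.H438R2.PD (P1 P2 P1_meas P2_meas T_meas' T_le T_congr P1_lt T_comp)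

theorem lift_shadow' (n m : ℕ) (hm : 1 ≤ m) (hmn : m + 2 ≤ n) (P q : ℝ) (hP : 2 < P)
    (A : ℝ) (hA : 0 < A) (h : 1 < (q - 2) * (((n : ℝ) - m - 1) / 2 + 1 / (P - 2))) :
    ∃ C : ℝ, 0 < C ∧ ∀ (v : Fin m → E n), Orthonormal ℝ v →
    ∀ (G : E (1 + m) → ℂ), Measurable G → (∀ y, ‖G y‖ ≤ 1) →
    ∫⁻ z, ‖T G z‖ₑ ^ P ≤ ENNReal.ofReal A →
    ∫⁻ z, ‖T (fun x : E n => G (shadow v x)) z‖ₑ ^ q ≤ ENNReal.ofReal C := by
  obtain ⟨k, rfl⟩ : ∃ k, n = k + m := ⟨n - m, by omega⟩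
  refine lift_shadow k m (by omega) hm P q hP A hA ?_
  have e : ((k + m : ℕ) : ℝ) - m - 1 = (k : ℝ) - 1 := by push_cast; ring
  rwa [e] at h

theorem split' {n k m : ℕ} (hn : k + m = n) (u : Fin k → E n) (hu : Orthonormal ℝ u) :
    ∃ v : Fin m → E n, Orthonormal ℝ v ∧
      (∀ x : E n, ∑ j, (⟪u j, x⟫ : ℝ) ^ 2 + ∑ i, (⟪v i, x⟫ : ℝ) ^ 2 = ‖x‖ ^ 2) ∧
      ∀ w : E n, (∀ j, (⟪u j, w⟫ : ℝ) = 0) → ∀ x : E n,
        (⟪w, x⟫ : ℝ) = ∑ i, (⟪v i, w⟫ : ℝ) * ⟪v i, x⟫ := by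
  subst hn
  exact split u hu

theorem exists_P (a : ℝ) (ha : 0 < a) (B q : ℝ) (hB : 0 < B)
    (h : 1 < (q - 2) * (a + B)) : ∃ P : ℝ, 2 < P ∧ 1 / (P - 2) < B ∧
    1 < (q - 2) * (a + 1 / (P - 2)) := by
  have hq : 0 < q - 2 := by
    by_contra hc
    have : (q - 2) * (a + B) ≤ 0 :=
      mul_nonpos_of_nonpos_of_nonneg (not_lt.1 hc) (by linarith)
    linarith
  have h1 : 1 / (q - 2) - a < B := by
    have h2 : 1 / (q - 2) < a + B := by
      rw [div_lt_iff₀ hq, mul_comm]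
      exact h
    linarith
  obtain ⟨v, hv1, hv2⟩ := exists_between (max_lt h1 hB)
  have hv0 : 0 < v := lt_of_le_of_lt (le_max_right _ _) hv1
  have hv3 : 1 / (q - 2) - a < v := lt_of_le_of_lt (le_max_left _ _) hv1
  refine ⟨2 + 1 / v, by linarith [one_div_pos.2 hv0], ?_, ?_⟩
  · rw [add_sub_cancel_left, one_div_one_div]
    exact hv2
  · rw [add_sub_cancel_left, one_div_one_div]
    have h4 : 1 / (q - 2) < a + v := by linarith
    rw [div_lt_iff₀ hq] at h4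
    rw [mul_comm]
    exact h4

/-- exponents for the full range -/
theorem exists_P_full (n m : ℕ) (hm : 1 ≤ m) (hmn : m + 2 ≤ n) (q : ℝ)
    (hq : 2 * (n : ℝ) / (n - 1) < q) : ∃ P : ℝ, 2 < P ∧ 2 * ((1 + m : ℕ) : ℝ) / ((1 + m : ℕ) - 1) < P ∧
    1 < (q - 2) * (((n : ℝ) - m - 1) / 2 + 1 / (P - 2)) := by
  have hm' : (1 : ℝ) ≤ m := by exact_mod_cast hm
  have hmn' : (m : ℝ) + 2 ≤ n := by exact_mod_cast hmn
  have h1 := full_iff n (by omega) q hq
  obtain ⟨P, hP, hPB, h2⟩ := exists_P (((n : ℝ) - m - 1) / 2) (by linarith) (m / 2) q (by positivity)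
    (by
      have e : ((n : ℝ) - m - 1) / 2 + (m : ℝ) / 2 = ((n : ℝ) - 1) / 2 := by ring
      rw [e]; exact h1)
  refine ⟨P, hP, ?_, h2⟩
  have e : ((1 + m : ℕ) : ℝ) = 1 + m := by push_cast; ring
  rw [e]
  have hP2 : 0 < P - 2 := by linarith
  rw [div_lt_iff₀ hP2] at hPB
  rw [div_lt_iff₀ (by linarith)]
  nlinarith

/-- length of the block spanned by `u` -/
noncomputable def nrm {n d : ℕ} (u : Fin d → E n) (x : E n) : ℝ := √(∑ j, (⟪u j, x⟫ : ℝ) ^ 2)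

/-- sum of lengths of blocks and a linear function -/
noncomputable def psi {n r : ℕ} (d : Fin r → ℕ) (u : ∀ i, Fin (d i) → E n) (a : Fin r → ℝ)
    (b x : E n) : ℝ := ∑ i, a i * nrm (u i) x + ⟪b, x⟫

/-- admissible blocks -/
def Adm {n r : ℕ} (d : Fin r → ℕ) (u : ∀ i, Fin (d i) → E n) (b : E n) : Prop :=
  (∀ i, 2 ≤ d i) ∧ (Orthonormal ℝ fun p : Σ i : Fin r, Fin (d i) => u p.1 p.2) ∧
    ∀ i j, (⟪u i j, b⟫ : ℝ) = 0

/-- the functions of the class -/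
noncomputable def cf {n r : ℕ} (d : Fin r → ℕ) (u : ∀ i, Fin (d i) → E n) (c : Fin r → ℝ)
    (η : E n) (a : Fin r → ℝ) (b : E n) (h : ℝ → ℂ) (x : E n) : ℂ :=
  Complex.exp ((psi d u c η x : ℝ) * I) * h (psi d u a b x)

theorem nrm_cont {n d : ℕ} (u : Fin d → E n) : Continuous (nrm u) := by
  unfold nrm; fun_prop

theorem psi_cont {n r : ℕ} (d : Fin r → ℕ) (u : ∀ i, Fin (d i) → E n) (a : Fin r → ℝ)
    (b : E n) : Continuous (psi d u a b) := by
  unfold psi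
  have h1 : ∀ i, Continuous fun x => nrm (u i) x := fun i => nrm_cont (u i)
  fun_prop

theorem cf_meas {n r : ℕ} (d : Fin r → ℕ) (u : ∀ i, Fin (d i) → E n) (c : Fin r → ℝ)
    (η : E n) (a : Fin r → ℝ) (b : E n) (h : ℝ → ℂ) (hh : Measurable h) :
    Measurable (cf d u c η a b h) := by
  unfold cf
  have h1 := psi_cont d u c η
  have h2 : Measurable fun x => Complex.exp ((psi d u c η x : ℝ) * I) := by
    have : Continuous fun x => Complex.exp ((psi d u c η x : ℝ) * I) := by fun_prop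
    exact this.measurable
  exact h2.mul (hh.comp (psi_cont d u a b).measurable)

theorem cf_le {n r : ℕ} (d : Fin r → ℕ) (u : ∀ i, Fin (d i) → E n) (c : Fin r → ℝ)
    (η : E n) (a : Fin r → ℝ) (b : E n) (h : ℝ → ℂ) (hb : ∀ s, ‖h s‖ ≤ 1) (x : E n) :
    ‖cf d u c η a b h x‖ ≤ 1 := by
  unfold cf
  rw [norm_mul, Complex.norm_exp_ofReal_mul_I, one_mul]
  exact hb _

/-- the linear map into `ℝ^(1+m)` -/
noncomputable def Lf {n m : ℕ} (v : Fin m → E n) (w : E n) : E (1 + m) :=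
  J (0 : E 1) (WithLp.toLp 2 fun i => (⟪v i, w⟫ : ℝ))

theorem shadow_eq {n m : ℕ} (v : Fin m → E n) (x : E n) :
    shadow v x = J (√(1 - ∑ i, (⟪v i, x⟫ : ℝ) ^ 2) • e0)
      (WithLp.toLp 2 fun i => (⟪v i, x⟫ : ℝ)) := by
  unfold shadow
  ext i
  refine Fin.addCases (fun j => ?_) (fun j => ?_) i
  · simp only [J, Fin.append_left]
    have : j = 0 := Subsingleton.elim _ _
    subst this
    simp [e0]
  · simp only [J, Fin.append_right]

theorem Lf_Lf {n m : ℕ} (v : Fin m → E n) (w x : E n) :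
    (⟪Lf v w, Lf v x⟫ : ℝ) = ∑ i, (⟪v i, w⟫ : ℝ) * ⟪v i, x⟫ := by
  unfold Lf
  rw [J_inner, inner_zero_left, zero_add, PiLp.inner_apply]
  refine Finset.sum_congr rfl fun i _ => ?_
  simp [mul_comm]

theorem Lf_shadow {n m : ℕ} (v : Fin m → E n) (w x : E n) :
    (⟪Lf v w, shadow v x⟫ : ℝ) = ∑ i, (⟪v i, w⟫ : ℝ) * ⟪v i, x⟫ := by
  rw [shadow_eq]
  unfold Lf
  rw [J_inner, inner_zero_left, zero_add, PiLp.inner_apply]
  refine Finset.sum_congr rfl fun i _ => ?_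
  simp [mul_comm]

theorem ev_Lf {n m : ℕ} (v : Fin m → E n) (w : E n) : (⟪ev m, Lf v w⟫ : ℝ) = 0 := by
  unfold ev Lf
  rw [J_inner, inner_zero_right, inner_zero_left, add_zero]

theorem ev_shadow {n m : ℕ} (v : Fin m → E n) (x : E n) :
    (⟪ev m, shadow v x⟫ : ℝ) = √(1 - ∑ i, (⟪v i, x⟫ : ℝ) ^ 2) := by
  rw [shadow_eq]
  unfold ev
  rw [J_inner, inner_zero_left, add_zero, real_inner_smul_right, real_inner_self_eq_norm_sq,
    e0_norm]
  simp

/-- the reduction to the sphere of `ℝ^(1+m)` -/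
theorem reduce {n r m : ℕ} (d : Fin (r + 1) → ℕ) (u : ∀ i, Fin (d i) → E n) (a c : Fin (r + 1) → ℝ)
    (b : E n) (h : ℝ → ℂ) (hadm : Adm d u b) (v : Fin m → E n)
    (hv1 : ∀ x : E n, ∑ j, (⟪u 0 j, x⟫ : ℝ) ^ 2 + ∑ i, (⟪v i, x⟫ : ℝ) ^ 2 = ‖x‖ ^ 2)
    (hv2 : ∀ w : E n, (∀ j, (⟪u 0 j, w⟫ : ℝ) = 0) → ∀ x : E n,
        (⟪w, x⟫ : ℝ) = ∑ i, (⟪v i, w⟫ : ℝ) * ⟪v i, x⟫) :
    Adm (fun i : Fin r => d i.succ) (fun i j => Lf v (u i.succ j)) (a 0 • ev m + Lf v b) ∧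
    ∀ x : E n, ‖x‖ = 1 → cf (fun i : Fin r => d i.succ) (fun i j => Lf v (u i.succ j))
      (fun i => c i.succ) (c 0 • ev m) (fun i => a i.succ) (a 0 • ev m + Lf v b) h (shadow v x) =
      cf d u c 0 a b h x := by
  obtain ⟨h2, ho, hb⟩ := hadm
  have hperp : ∀ (i : Fin r) (j : Fin (d i.succ)) (l : Fin (d 0)),
      (⟪u 0 l, u i.succ j⟫ : ℝ) = 0 := by
    intro i j l
    have h3 : (⟨0, l⟩ : Σ i : Fin (r + 1), Fin (d i)) ≠ ⟨i.succ, j⟩ := by
      intro h4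
      have h5 := congrArg Sigma.fst h4
      simp only at h5
      exact absurd h5.symm (Fin.succ_ne_zero i)
    exact ho.2 h3
  have hb0 : ∀ l, (⟪u 0 l, b⟫ : ℝ) = 0 := fun l => hb 0 l
  have hin : ∀ (i : Fin r) (j : Fin (d i.succ)) (x : E n),
      (⟪Lf v (u i.succ j), shadow v x⟫ : ℝ) = ⟪u i.succ j, x⟫ := by
    intro i j x
    rw [Lf_shadow, ← hv2 _ (hperp i j)]
  refine ⟨⟨fun i => h2 _, ?_, ?_⟩, ?_⟩
  · constructor
    · rintro ⟨i, j⟩
      have h3 : ‖Lf v (u i.succ j)‖ ^ 2 = 1 := by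
        rw [← real_inner_self_eq_norm_sq, Lf_Lf, ← hv2 _ (hperp i j), real_inner_self_eq_norm_sq]
        have := ho.1 ⟨i.succ, j⟩
        simp only at this
        rw [this]
        norm_num
      have h4 : (0 : ℝ) ≤ ‖Lf v (u i.succ j)‖ := norm_nonneg _
      simp only
      nlinarith
    · rintro ⟨i, j⟩ ⟨i', j'⟩ hne
      simp only
      rw [Lf_Lf, ← hv2 _ (hperp i j)]
      have h3 : (⟨i.succ, j⟩ : Σ i : Fin (r + 1), Fin (d i)) ≠ ⟨i'.succ, j'⟩ := by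
        intro h4
        apply hne
        have h5 := congrArg Sigma.fst h4
        simp only at h5
        have h6 : i = i' := Fin.succ_injective _ h5
        subst h6
        simp only [Sigma.mk.injEq, heq_eq_eq, true_and] at h4 ⊢
        exact h4
      exact ho.2 h3
  · intro i j
    rw [inner_add_right, real_inner_smul_right, real_inner_comm, ev_Lf, mul_zero, zero_add,
      Lf_Lf, ← hv2 _ (hperp i j)]
    exact hb _ _
  · intro x hx
    have hn0 : (⟪ev m, shadow v x⟫ : ℝ) = nrm (u 0) x := by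
      rw [ev_shadow]
      unfold nrm
      congr 1
      have := hv1 x
      rw [hx] at this
      linarith
    have hni : ∀ i : Fin r, nrm (fun j => Lf v (u i.succ j)) (shadow v x) = nrm (u i.succ) x := by
      intro i
      unfold nrm
      simp only [hin]
    have hLb : (⟪Lf v b, shadow v x⟫ : ℝ) = ⟪b, x⟫ := by
      rw [Lf_shadow, ← hv2 _ hb0]
    have e1 : psi (fun i : Fin r => d i.succ) (fun i j => Lf v (u i.succ j))
        (fun i => c i.succ) (c 0 • ev m) (shadow v x) = psi d u c 0 x := by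
      unfold psi
      rw [Fin.sum_univ_succ, real_inner_smul_left, hn0, inner_zero_left, add_zero]
      simp only [hni]
      ring
    have e2 : psi (fun i : Fin r => d i.succ) (fun i j => Lf v (u i.succ j))
        (fun i => a i.succ) (a 0 • ev m + Lf v b) (shadow v x) = psi d u a b x := by
      unfold psi
      rw [Fin.sum_univ_succ, inner_add_left, real_inner_smul_left, hn0, hLb]
      simp only [hni]
      ring
    unfold cf
    rw [e1, e2]

end Pool.Agent.U515.LF
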