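import Mathlib
import Pool.Agent.U515.LF.A6
set_option autoImplicit false

/-! The estimate for functions of sums of lengths of orthogonal blocks, by induction over the
dimension. -/

namespace Pool.Agent.U515.LF

open MeasureTheory Set Complex
open scoped ENNReal RealInnerProductSpace
open Pool.Agent.TH335.RF
open Pool.Agent.H789R2.FR (E sg T sg_finite sg_ae)
open Pool.Agent.H438R2.BR (Phi J J_mp J_inner)
open Pool.Agent.H438R2.BR.T10 (e0 e0_norm)
open Pool.Agent.H438R2.PD (P1 P2 P1_meas P2_meas T_meas' T_le T_congr P1_lt T_comp)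

/-- removal of the modulation -/
theorem cf_mod {n r : ℕ} (d : Fin r → ℕ) (u : ∀ i, Fin (d i) → E n) (c : Fin r → ℝ)
    (η : E n) (a : Fin r → ℝ) (b : E n) (h : ℝ → ℂ) (q : ℝ) :
    ∫⁻ z, ‖T (cf d u c η a b h) z‖ₑ ^ q = ∫⁻ z, ‖T (cf d u c 0 a b h) z‖ₑ ^ q := by
  have e : cf d u c η a b h = fun x => Complex.exp ((⟪η, x⟫ : ℝ) * I) * cf d u c 0 a b h x := by
    funext x
    unfold cf psi
    rw [← mul_assoc, ← Complex.exp_add, inner_zero_left, add_zero]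
    congr 2
    push_cast
    ring
  rw [e]
  exact T_mod η _ q

theorem adm_block {n r : ℕ} (d : Fin r → ℕ) (u : ∀ i, Fin (d i) → E n) (b : E n)
    (hadm : Adm d u b) (i : Fin r) : Orthonormal ℝ (u i) := by
  refine ⟨fun j => hadm.2.1.1 ⟨i, j⟩, fun j j' hne => ?_⟩
  have h3 : (⟨i, j⟩ : Σ i : Fin r, Fin (d i)) ≠ ⟨i, j'⟩ := by
    intro h4
    simp only [Sigma.mk.injEq, heq_eq_eq, true_and] at h4
    exact hne h4
  exact hadm.2.1.2 h3

/-- few variables: the function is a ridge function on the sphere -/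
theorem small {n r m : ℕ} (hm : m ≤ 1) (d : Fin (r + 1) → ℕ) (u : ∀ i, Fin (d i) → E n)
    (a c : Fin (r + 1) → ℝ) (b : E n) (h : ℝ → ℂ) (hh : Measurable h) (hhb : ∀ s, ‖h s‖ ≤ 1)
    (hadm : Adm d u b) (v : Fin m → E n)
    (hv1 : ∀ x : E n, ∑ j, (⟪u 0 j, x⟫ : ℝ) ^ 2 + ∑ i, (⟪v i, x⟫ : ℝ) ^ 2 = ‖x‖ ^ 2)
    (hv2 : ∀ w : E n, (∀ j, (⟪u 0 j, w⟫ : ℝ) = 0) → ∀ x : E n,
        (⟪w, x⟫ : ℝ) = ∑ i, (⟪v i, w⟫ : ℝ) * ⟪v i, x⟫) :
    ∃ (ω : E n) (H : ℝ → ℂ), Measurable H ∧ (∀ s, ‖H s‖ ≤ 1) ∧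
      ∀ x : E n, ‖x‖ = 1 → cf d u c 0 a b h x = H ⟪ω, x⟫ := by
  obtain ⟨h2, ho, hb⟩ := hadm
  -- a single vector
  obtain ⟨ω, hω⟩ : ∃ ω : E n, (∀ x : E n, ∑ i, (⟪v i, x⟫ : ℝ) ^ 2 = ⟪ω, x⟫ ^ 2) ∧
      ∀ w : E n, (∀ j, (⟪u 0 j, w⟫ : ℝ) = 0) → ∃ β : ℝ, ∀ x : E n, (⟪w, x⟫ : ℝ) = β * ⟪ω, x⟫ := by
    interval_cases m
    · refine ⟨0, fun x => by simp, fun w hw => ⟨0, fun x => ?_⟩⟩
      rw [hv2 w hw]
      simp
    · refine ⟨v 0, fun x => by simp, fun w hw => ⟨⟪v 0, w⟫, fun x => ?_⟩⟩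
      rw [hv2 w hw]
      simp
  obtain ⟨hω1, hω2⟩ := hω
  -- there is one block only
  have hr : r = 0 := by
    by_contra hr
    have hr' : 0 < r := Nat.pos_of_ne_zero hr
    set i1 : Fin (r + 1) := (⟨0, hr'⟩ : Fin r).succ with hi1
    have hd : 2 ≤ d i1 := h2 i1
    set w1 : E n := u i1 ⟨0, by omega⟩ with hw1
    set w2 : E n := u i1 ⟨1, by omega⟩ with hw2
    have hperp : ∀ (j : Fin (d i1)) (l : Fin (d 0)), (⟪u 0 l, u i1 j⟫ : ℝ) = 0 := by
      intro j l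
      have h3 : (⟨0, l⟩ : Σ i : Fin (r + 1), Fin (d i)) ≠ ⟨i1, j⟩ := by
        intro h4
        have h5 := congrArg Sigma.fst h4
        simp only at h5
        exact absurd h5.symm (Fin.succ_ne_zero _)
      exact ho.2 h3
    obtain ⟨β1, hβ1⟩ := hω2 w1 (hperp _)
    obtain ⟨β2, hβ2⟩ := hω2 w2 (hperp _)
    have n1 : (⟪w1, w1⟫ : ℝ) = 1 := by
      rw [real_inner_self_eq_norm_sq]
      have : ‖w1‖ = 1 := ho.1 ⟨i1, _⟩
      rw [this]; norm_num
    have n2 : (⟪w2, w2⟫ : ℝ) = 1 := by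
      rw [real_inner_self_eq_norm_sq]
      have : ‖w2‖ = 1 := ho.1 ⟨i1, _⟩
      rw [this]; norm_num
    have n12 : (⟪w1, w2⟫ : ℝ) = 0 := by
      have h3 : (⟨i1, ⟨0, by omega⟩⟩ : Σ i : Fin (r + 1), Fin (d i)) ≠ ⟨i1, ⟨1, by omega⟩⟩ := by
        intro h4
        simp only [Sigma.mk.injEq, heq_eq_eq, true_and, Fin.mk.injEq] at h4
        omega
      exact ho.2 h3
    have g1 := hβ1 w1
    have g2 := hβ1 w2
    have g3 := hβ2 w2
    rw [n1] at g1
    rw [n12] at g2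
    rw [n2] at g3
    rcases mul_eq_zero.1 g2.symm with h0 | h0
    · rw [h0] at g1; linarith
    · rw [h0] at g3; linarith
  subst hr
  obtain ⟨β, hβ⟩ := hω2 b (fun j => hb 0 j)
  refine ⟨ω, fun s => Complex.exp (((c 0 * √(1 - s ^ 2) : ℝ) : ℂ) * I) *
    h (a 0 * √(1 - s ^ 2) + β * s), ?_, ?_, ?_⟩
  · have m1 : Measurable fun s : ℝ => Complex.exp (((c 0 * √(1 - s ^ 2) : ℝ) : ℂ) * I) := by
      have : Continuous fun s : ℝ => Complex.exp (((c 0 * √(1 - s ^ 2) : ℝ) : ℂ) * I) := by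
        fun_prop
      exact this.measurable
    have m2 : Measurable fun s : ℝ => a 0 * √(1 - s ^ 2) + β * s := by
      have : Continuous fun s : ℝ => a 0 * √(1 - s ^ 2) + β * s := by fun_prop
      exact this.measurable
    exact m1.mul (hh.comp m2)
  · intro s
    rw [norm_mul, Complex.norm_exp_ofReal_mul_I, one_mul]
    exact hhb _
  · intro x hx
    have hn : nrm (u 0) x = √(1 - (⟪ω, x⟫ : ℝ) ^ 2) := by
      unfold nrm
      congr 1
      have h3 := hv1 x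
      rw [hx, hω1] at h3
      linarith
    unfold cf psi
    simp only [Fin.sum_univ_succ, Fin.sum_univ_zero, add_zero, inner_zero_left]
    rw [hn, hβ]

/-- **the estimate for the class** -/
theorem class_bound : ∀ n : ℕ, 3 ≤ n → ∀ q : ℝ, 2 * (n : ℝ) / (n - 1) < q →
    ∃ C : ℝ, 0 < C ∧ ∀ (r : ℕ) (d : Fin r → ℕ) (u : ∀ i, Fin (d i) → E n) (c : Fin r → ℝ) (η : E n)
      (a : Fin r → ℝ) (b : E n) (h : ℝ → ℂ), Adm d u b → Measurable h → (∀ s, ‖h s‖ ≤ 1) →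
      ∫⁻ z, ‖T (cf d u c η a b h) z‖ₑ ^ q ≤ ENNReal.ofReal C := by
  intro n
  induction n using Nat.strong_induction_on with
  | _ n ih =>
  intro hn q hq
  obtain ⟨C0, hC0, hridge⟩ := ridge_T n hn q hq
  have hlift : ∀ m : ℕ, ∃ C : ℝ, 0 < C ∧ (2 ≤ m → m + 2 ≤ n → ∀ v : Fin m → E n, Orthonormal ℝ v →
      ∀ (r : ℕ) (d : Fin r → ℕ) (u : ∀ i, Fin (d i) → E (1 + m)) (c : Fin r → ℝ) (η : E (1 + m))
      (a : Fin r → ℝ) (b : E (1 + m)) (h : ℝ → ℂ), Adm d u b → Measurable h → (∀ s, ‖h s‖ ≤ 1) →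
      ∫⁻ z, ‖T (fun x : E n => cf d u c η a b h (shadow v x)) z‖ₑ ^ q ≤ ENNReal.ofReal C) := by
    intro m
    by_cases hc : 2 ≤ m ∧ m + 2 ≤ n
    · obtain ⟨P, hP, hPm, h1⟩ := exists_P_full n m (by omega) hc.2 q hq
      obtain ⟨A, hA, hbd⟩ := ih (1 + m) (by omega) (by omega) P hPm
      obtain ⟨C, hC, hl⟩ := lift_shadow' n m (by omega) hc.2 P q hP A hA h1
      refine ⟨C, hC, fun _ _ v hv r d u c η a b h hadm hh hhb => ?_⟩
      exact hl v hv _ (cf_meas d u c η a b h hh) (cf_le d u c η a b h hhb)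
        (hbd r d u c η a b h hadm hh hhb)
    · exact ⟨1, one_pos, fun h1 h2 => absurd ⟨h1, h2⟩ hc⟩
  choose Cm hCm hl using hlift
  have hsum : 0 ≤ ∑ m ∈ Finset.range n, Cm m := Finset.sum_nonneg fun m _ => (hCm m).le
  refine ⟨C0 + ∑ m ∈ Finset.range n, Cm m, by linarith, ?_⟩
  intro r d u c η a b h hadm hh hhb
  rw [cf_mod]
  cases r with
  | zero =>
    have e : cf d u c 0 a b h = fun x => h ⟪b, x⟫ := by
      funext x
      unfold cf psi
      simp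
    rw [e]
    exact (hridge b h hh hhb).trans (ENNReal.ofReal_le_ofReal (by linarith))
  | succ r =>
    have hu0 : Orthonormal ℝ (u 0) := adm_block d u b hadm 0
    have hd0 : d 0 ≤ n := by
      have := hu0.linearIndependent.fintype_card_le_finrank
      simpa using this
    have hd2 : 2 ≤ d 0 := hadm.1 0
    obtain ⟨m, hm⟩ : ∃ m, d 0 + m = n := ⟨n - d 0, by omega⟩
    obtain ⟨v, hv, hv1, hv2⟩ := split' hm (u 0) hu0
    by_cases hm1 : m ≤ 1
    · obtain ⟨ω, H, hH, hHb, hHe⟩ := small hm1 d u a c b h hh hhb hadm v hv1 hv2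
      have e : ∀ z, T (cf d u c 0 a b h) z = T (fun x => H ⟪ω, x⟫) z := by
        intro z
        apply T_congr
        filter_upwards [sg_ae n] with x hx
        exact hHe x hx
      simp_rw [e]
      exact (hridge ω H hH hHb).trans (ENNReal.ofReal_le_ofReal (by linarith))
    · obtain ⟨hadm', heq⟩ := reduce d u a c b h hadm v hv1 hv2
      have e : ∀ z, T (cf d u c 0 a b h) z = T (fun x => cf (fun i : Fin r => d i.succ)
          (fun i j => Lf v (u i.succ j)) (fun i => c i.succ) (c 0 • ev m) (fun i => a i.succ)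
          (a 0 • ev m + Lf v b) h (shadow v x)) z := by
        intro z
        apply T_congr
        filter_upwards [sg_ae n] with x hx
        exact (heq x hx).symm
      simp_rw [e]
      refine (hl m (by omega) (by omega) v hv _ _ _ _ _ _ _ h hadm' hh hhb).trans
        (ENNReal.ofReal_le_ofReal ?_)
      have h3 : Cm m ≤ ∑ m ∈ Finset.range n, Cm m :=
        Finset.single_le_sum (f := Cm) (fun i _ => (hCm i).le) (Finset.mem_range.2 (by omega))
      linarith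

end Pool.Agent.U515.LF
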